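import Pool.Agent.Y329.T23.Circle

/-!
Every action of the Thompson-Stein group `T(2,3)` on the circle by `C^1` diffeomorphisms is trivial.
-/

namespace Pool.Agent.Results.MP_9d59aa_al.C1ActionsTrivial

open Pool.Agent.Y329.ThompsonStein

/-- Every homomorphism `ρ` from `T(2,3)` to the group of homeomorphisms of the circle `ℝ/ℤ`, all
whose values are `C^1` diffeomorphisms (possibly reversing the orientation), is trivial. -/
theorem result (ρ : T23 →* (UnitAddCircle ≃ₜ UnitAddCircle)) (hρ : ∀ g, IsC1Diffeo (ρ g)) :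
    ∀ g, ρ g = 1 :=
  Pool.Agent.Y329.T23.main_theorem ρ hρ

end Pool.Agent.Results.MP_9d59aa_al.C1ActionsTrivial
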